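import Pool.Agent.Helper68.Outer

/-! Let `L/k` be a cyclic extension of degree 30 or 42 of an arbitrary field. The torus `T_{L/k}`
is a double cover of a `k`-rational variety: the quotient of `T_{L/k}` by the inversion is
rational over `k`. -/

namespace Pool.Agent.Results.MP_88348f_ag.InversionQuotient

open Pool.Agent.Helper68

theorem _root_.Pool.Agent.Results.MP_88348f_ag.InversionQuotient.result
    {k L Ω : Type*} [Field k] [Field L] [Field Ω] [Algebra k L] [Algebra k Ω] [Algebra L Ω]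
    [IsScalarTower k L Ω] [FiniteDimensional k L] [IsGalois k L] [IsCyclic (L ≃ₐ[k] L)]
    (hn : Module.finrank k L = 30 ∨ Module.finrank k L = 42)
    (ρ : (L ≃ₐ[k] L) →* (Ω ≃ₐ[k] Ω)) (x : Ω) (h : IsGenericPoint k ρ x) :
    ∃ ι : Ω ≃ₐ[L] Ω, (∀ τ, ι (ρ τ x) = (ρ τ x)⁻¹) ∧ (∃ y, (∀ τ, ρ τ y = y) ∧ ι y ≠ y) ∧
      ∃ t : Fin (Nat.totient (Module.finrank k L)) → Ω, AlgebraicIndependent k t ∧
        ∀ y, y ∈ IntermediateField.adjoin k (Set.range t) ↔ (∀ τ, ρ τ y = y) ∧ ι y = y := by
  rcases hn with hn | hn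
  · obtain ⟨S⟩ := exists_split (k := k) (L := L) 30 2 15 10 6 hn (by norm_num) (by norm_num)
      (by norm_num) (by norm_num)
    exact main_aux 2 S (by norm_num) le_rfl (by norm_num) h (by rw [hn]; decide)
  · obtain ⟨S⟩ := exists_split (k := k) (L := L) 42 3 21 28 36 hn (by norm_num) (by norm_num)
      (by norm_num) (by norm_num)
    exact main_aux 3 S (by norm_num) (by norm_num) le_rfl h (by rw [hn]; decide)

end Pool.Agent.Results.MP_88348f_ag.InversionQuotient
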